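import Pool.Agent.Results.MP_009fd8_ag.LayersProducts

/-!
# The Bloch–Kato conjecture for base changes of elliptic curves to imaginary quadratic fields:
# exact proportions for finitely many fields and curves at the same time

`E` is the modular curve `X_0(14)`, an elliptic curve without complex multiplication with one rational
point of order two, and `E_M` is its quadratic twist by `M`.  The class `Adm` consists of the squarefree
integers, positive or negative, `1` modulo `4`, squares modulo `7`, whose prime divisors split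
completely in `ℚ(i, √2, √-7)` or are inert in `ℚ(√2)` and in `ℚ(√-7)`, and are inert in the cyclotomic
`ℤ₃`-extension of `ℚ`.

For a negative element `d` and an element `M` of the class let `π = π(M, d)` be the base change of the
cuspidal representation of `GL₂` attached to `E_M` to the imaginary quadratic field `F = ℚ(√d)`, with
the normalization of weight `-1`: `π` is cuspidal, `π^∨ = π^c |·|⁻¹`, `L(s, π) = L(E_M/F, s + 1)`,
and `ρ = V_2 E_M` is its 2-adic realization (`p = 2`).

The set of the pairs `(M, d)` such that the ranks of `E_M` and of the twist by the squarefree part of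
`M d` are zero and their groups `Ш[2]` are zero: for these pairs `L(s, π)` does not vanish at `s = 0`,
and `H¹_f(F, ρ) = 0`.  So the equality of the conjecture holds for `π(M, d)`.

* For each finite set of pairs `(b, d)` the `D` of the class such that this holds for all the
  representations `π(b D, d)` (squarefree part of `b D`) have the proportion exactly `c^w`,
  `c = ∏_{i ≥ 0} (1 - 2^{-(2 i + 1)}) = 0.419...`, where `w` is the number of the classes modulo squares
  of the numbers `b` and `b d`.
* For each finite set of curves `E_M` with rank zero and `Ш[2] = 0` the negative `d` of the class such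
  that the above holds for all the `π(M, d)` have the proportion exactly `c^t`, `t` the number of
  these curves.
-/

set_option autoImplicit false

open NumberField IsDedekindDomain Filter Topology

namespace Pool.Agent.Results.MP_7c08ba_nt.ImaginaryQuadraticLaw

open scoped Classical

open Pool.Agent.TH841.NF.D (Sha)

open Pool.Agent.Results.MP_787500_nt.LayersBlochKatoLaw (E base factor rank twist multiquadratic
  cyclotomic BothZero Adm Small count cc Proportion Many adm_iff mat_eq small_iff)

open Pool.Agent.Results.MP_0b9e0b_ag.MultiquadraticProducts (IsBase IsFamily IsTwists Criterion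
  cl_iff crit_ex exists_twists)

section

variable (F : Type) [Field F] [NumberField F]

/-- The Euler factor of `L(E_M/F, s)` at `v`; the places that divide `42 M d` are left out. -/
noncomputable def euler (M d : ℤ) (s : ℂ) (v : HeightOneSpectrum (𝓞 F)) : ℂ :=
  if ((42 * M * d : ℤ) : 𝓞 F) ∈ v.asIdeal then 1 else factor (K := F) (twist M) s v

end

/-- The equality of the conjecture for `π = π(M, d)`, `p = 2`, with both sides zero: for
`F = ℚ(√d)`, an imaginary quadratic field, `L(E_M/F, s)` (without finitely many Euler factors) is entire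
and not zero at `s = 1`, and `E_M(F) ⊗ ℚ_2` and `H¹_f(F, V_2 E_M)` are zero. -/
def Holds (M d : ℤ) : Prop := d < 0 ∧
  ∀ (F : IntermediateField ℚ ℂ) [NumberField F], F = multiquadratic {d} →
    Module.finrank ℚ F = 2 ∧
    (∃ L : ℂ → ℂ, Differentiable ℂ L ∧
      (∀ s : ℂ, 3 / 2 < s.re → HasProd (euler F M d s) (L s)) ∧ L 1 ≠ 0) ∧
    BothZero (base (twist M) F)

/-- `M` is in the class, and the ranks of `E_M` and of the twist by the squarefree part of `M d` are zero
and their groups `Ш[2]` are zero, over all the layers of the cyclotomic `ℤ₃`-extension of `ℚ`. -/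
def Good (M d : ℤ) : Prop := Adm M ∧ Small M ∧ ∀ D' k : ℤ, Adm D' → M * d = D' * k ^ 2 → Small D'

/-- For the squarefree parts `M` of the `D b` and of the `D b d`, `(b, d) ∈ P`, the rank of `E_M` is zero
and `Ш(E_M)[2] = 0`, over all the layers of the cyclotomic `ℤ₃`-extension of `ℚ`. -/
def GoodAll (P : Finset (ℤ × ℤ)) (D : ℤ) : Prop := ∀ x ∈ P, ∀ M k : ℤ, Adm M →
  (D * x.1 = M * k ^ 2 ∨ D * (x.1 * x.2) = M * k ^ 2) → Small M

/-- `P` is a finite set of pairs `(b, d)` of elements of the class, with `d` negative. -/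
def IsPairs (P : Finset (ℤ × ℤ)) : Prop := ∀ x ∈ P, Adm x.1 ∧ Adm x.2 ∧ x.2 < 0

/-- `W` is the set of the squarefree parts of the numbers `b` and `b d`, `(b, d) ∈ P`. -/
def IsClasses (P : Finset (ℤ × ℤ)) (W : Finset ℤ) : Prop :=
  ∀ M : ℤ, M ∈ W ↔ Adm M ∧ ∃ x ∈ P, ∃ k : ℤ, x.1 = M * k ^ 2 ∨ x.1 * x.2 = M * k ^ 2

lemma base_single {d : ℤ} (hd : Adm d) (h0 : d < 0) : IsBase {d} := by
  refine ⟨fun x hx => by rwa [Finset.mem_singleton.1 hx], fun T hT hne => ?_⟩
  have e : T = {d} := (Finset.subset_singleton_iff.1 hT).resolve_left hne.ne_empty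
  rw [e, Finset.prod_singleton]
  rintro ⟨r, hr⟩
  have := mul_self_nonneg r
  omega

lemma small_one : Small 1 := by
  have h1 : Adm 1 := (adm_iff 1).2 ⟨Pool.Agent.Y682.YS.oneD.1, Pool.Agent.Y682.YS.oneD.2⟩
  rw [small_iff 1 h1]
  have : IsEmpty (Pool.Agent.Results.MP_787500_nt.LayersBlochKatoLaw.P1 1) := by
    refine ⟨fun x => ?_⟩
    have := x.2
    unfold Pool.Agent.Results.MP_787500_nt.LayersBlochKatoLaw.P1 at this
    simp at this
  rw [Matrix.det_isEmpty]
  exact one_ne_zero

theorem holds_of {M d : ℤ} (hd : Adm d) (h0 : d < 0) (h : Good M d) : Holds M d := by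
  have hS := base_single hd h0
  have hgood : Pool.Agent.Results.MP_009fd8_ag.LayersProducts.Good {M} {d} := by
    refine ⟨fun x hx => by rw [Finset.mem_singleton.1 hx]; exact h.1, ?_⟩
    intro x hx U hU D' k hD' hk
    rw [Finset.mem_singleton.1 hx] at hk
    rcases Finset.subset_singleton_iff.1 hU with rfl | rfl
    · rw [Finset.prod_empty, mul_one] at hk
      have hk0 : k ≠ 0 := by
        rintro rfl
        have := ((adm_iff M).1 h.1).1.1.ne_zero
        apply this
        rw [hk]
        ring
      have e : D' = M := by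
        refine Pool.Agent.V11291.JH.sq_uniq ((adm_iff D').1 hD').1 ((adm_iff M).1 h.1).1 hk0
          (y := 1) ?_
        rw [← hk]
        ring
      rw [e]
      exact h.2.1
    · rw [Finset.prod_singleton] at hk
      exact h.2.2 D' k hD' hk
  refine ⟨h0, fun F _ hF => ?_⟩
  have hbot : NumberField (⊥ : IntermediateField ℚ ℂ) :=
    { to_charZero := inferInstance, to_finiteDimensional := inferInstance }
  have hex := (Pool.Agent.Results.MP_009fd8_ag.LayersProducts.good_iff hS hgood.1).1 hgood
  obtain ⟨hdeg, hB⟩ := Pool.Agent.Results.MP_009fd8_ag.LayersProducts.holds_of hS hgood 0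
    (⊥ : IntermediateField ℚ ℂ) F bot_le (by
      rw [IntermediateField.finrank_bot]
      exact odd_one) (by
      rw [sup_bot_eq]
      exact hF)
  refine ⟨?_, ?_, (hB M (Finset.mem_singleton_self M)).1⟩
  · rw [hdeg, IntermediateField.finrank_bot, Finset.card_singleton]
    norm_num
  · obtain ⟨Φ, hΦ, hΦ1⟩ := Pool.Agent.V11291.RG.lf_mq (S := {d}) hS.2 (M := M) (fun U hU => by
      obtain ⟨C₁, j₁, g1, g2, g3, g4⟩ := Pool.Agent.V11291.JH.prodS (S := U)
        fun x hx => by
          have hx' := hU hx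
          rw [Finset.mem_singleton] at hx'
          rw [hx']
          exact (adm_iff d).1 hd
      obtain ⟨C, j, k1, k2, k3, k4, -⟩ := Pool.Agent.Y682.YS.mulD ((adm_iff M).1 h.1).1
        ((adm_iff M).1 h.1).2 g1 g2
      have e1 : M * ∏ d ∈ U, d = C * (j * j₁) ^ 2 := by
        rw [g4, ← mul_assoc, k4]
        ring
      exact ⟨C, j * j₁, k1, hex M (Finset.mem_singleton_self M) U hU C (j * j₁) k1 e1,
        mul_ne_zero k3 g3, e1⟩) F hF
    rw [Finset.prod_singleton] at hΦ
    refine ⟨Φ, hΦ.1, fun s hs => ?_, hΦ1⟩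
    refine (hΦ.2 s hs).congr_fun fun v => ?_
    unfold euler
    exact (Pool.Agent.V11291.RG.fac_eq h.1.2.1 _ s v).symm

lemma good_of_all {P : Finset (ℤ × ℤ)} {D : ℤ} (h : GoodAll P D) {x : ℤ × ℤ} (hx : x ∈ P) {M k : ℤ}
    (hM : Adm M) (hk : D * x.1 = M * k ^ 2) : Good M x.2 := by
  refine ⟨hM, h x hx M k hM (Or.inl hk), fun D' j hD' hj => h x hx D' (j * k) hD' (Or.inr ?_)⟩
  have e : D * (x.1 * x.2) = (D * x.1) * x.2 := by ring
  rw [e, hk]
  have e2 : M * k ^ 2 * x.2 = (M * x.2) * k ^ 2 := by ring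
  rw [e2, hj]
  ring

/-- squarefree part in the class of an element of the class -/
lemma self_part {M b k : ℤ} (hM : Adm M) (hb : Adm b) (h : b = M * k ^ 2) : M = b := by
  have hk0 : k ≠ 0 := by
    rintro rfl
    apply ((adm_iff b).1 hb).1.1.ne_zero
    rw [h]
    ring
  refine Pool.Agent.V11291.JH.sq_uniq ((adm_iff M).1 hM).1 ((adm_iff b).1 hb).1 hk0 (y := 1) ?_
  rw [← h]
  ring

/-- the squarefree parts -/
lemma exists_classes {P : Finset (ℤ × ℤ)} (hP : IsPairs P) : ∃ W : Finset ℤ, IsClasses P W ∧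
    ∀ D : ℤ, Adm D → (GoodAll P D ↔ Criterion W ∅ D) := by
  have hp : ∀ x : ℤ × ℤ, x ∈ P → ∃ C k : ℤ, Adm C ∧ k ≠ 0 ∧ x.1 * x.2 = C * k ^ 2 := by
    intro x hx
    obtain ⟨h1, h2, -⟩ := hP x hx
    obtain ⟨C, k, g1, g2, g3, g4, -⟩ := Pool.Agent.Y682.YS.mulD ((adm_iff _).1 h1).1
      ((adm_iff _).1 h1).2 ((adm_iff _).1 h2).1 ((adm_iff _).1 h2).2
    exact ⟨C, k, (adm_iff C).2 ⟨g1, g2⟩, g3, g4⟩
  choose! f g h1 h2 h3 using hp
  have hW : IsClasses P (P.image (fun x => x.1) ∪ P.image f) := by
    intro M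
    rw [Finset.mem_union, Finset.mem_image, Finset.mem_image]
    constructor
    · rintro (⟨x, hx, rfl⟩ | ⟨x, hx, rfl⟩)
      · exact ⟨(hP x hx).1, x, hx, 1, Or.inl (by ring)⟩
      · exact ⟨h1 x hx, x, hx, g x, Or.inr (h3 x hx)⟩
    · rintro ⟨hM, x, hx, k, hk | hk⟩
      · exact Or.inl ⟨x, hx, (self_part hM (hP x hx).1 hk).symm⟩
      · refine Or.inr ⟨x, hx, ?_⟩
        refine Pool.Agent.V11291.JH.sq_uniq ((adm_iff _).1 (h1 x hx)).1 ((adm_iff _).1 hM).1 (h2 x hx)
          (y := k) ?_
        rw [← h3 x hx, hk]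
  refine ⟨_, hW, fun D hD => ⟨fun h => ?_, fun h => ?_⟩⟩
  · intro b hb U hU D' k hD' hk
    rw [Finset.subset_empty.1 hU, Finset.prod_empty, mul_one] at hk
    obtain ⟨hbA, x, hx, j, hj | hj⟩ := (hW b).1 hb
    · refine h x hx D' (k * j) hD' (Or.inl ?_)
      rw [hj, ← mul_assoc, hk]
      ring
    · refine h x hx D' (k * j) hD' (Or.inr ?_)
      rw [hj, ← mul_assoc, hk]
      ring
  · intro x hx M k hM hk
    rcases hk with hk | hk
    · have hb : x.1 ∈ P.image (fun x => x.1) ∪ P.image f :=
        Finset.mem_union_left _ (Finset.mem_image_of_mem _ hx)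
      refine h _ hb ∅ (Finset.empty_subset _) M k hM ?_
      rw [Finset.prod_empty, mul_one]
      exact hk
    · have hb : f x ∈ P.image (fun x => x.1) ∪ P.image f :=
        Finset.mem_union_right _ (Finset.mem_image_of_mem _ hx)
      -- `D * f x * (g x)^2 = M k^2`
      have e1 : D * f x * g x ^ 2 = M * k ^ 2 := by
        rw [← hk, h3 x hx]
        ring
      obtain ⟨C, j, k1, k2, k3, k4, -⟩ := Pool.Agent.Y682.YS.mulD ((adm_iff D).1 hD).1
        ((adm_iff D).1 hD).2 ((adm_iff _).1 (h1 x hx)).1 ((adm_iff _).1 (h1 x hx)).2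
      have e2 : C = M := by
        refine Pool.Agent.V11291.JH.sq_uniq k1 ((adm_iff _).1 hM).1
          (mul_ne_zero k3 (h2 x hx)) (y := k) ?_
        rw [← e1, k4]
        ring
      refine h _ hb ∅ (Finset.empty_subset _) M j hM ?_
      rw [Finset.prod_empty, mul_one, k4, e2]

lemma classes_uniq {P : Finset (ℤ × ℤ)} {W W' : Finset ℤ} (h : IsClasses P W)
    (h' : IsClasses P W') : W = W' := by
  ext M
  rw [h M, h' M]

lemma family {W : Finset ℤ} (hW : ∀ M ∈ W, Adm M) : IsFamily W ∅ := by
  refine ⟨hW, fun b hb b' hb' hne U hU => ?_⟩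
  rw [Finset.subset_empty.1 hU, Finset.prod_empty, mul_one]
  rintro ⟨r, hr⟩
  have hb0 : b' ≠ 0 := ((adm_iff b').1 (hW b' hb')).1.1.ne_zero
  apply hne
  refine Pool.Agent.V11291.JH.sq_uniq ((adm_iff _).1 (hW b hb)).1 ((adm_iff _).1 (hW b' hb')).1 hb0
    (y := r) ?_
  linear_combination b' * hr

lemma isBase_empty : IsBase ∅ := by
  refine ⟨fun d hd => absurd hd (Finset.notMem_empty d), fun T hT hne => ?_⟩
  exact absurd (Finset.subset_empty.1 hT) hne.ne_empty

/-- **Main theorem.**
(1) If `d` is a negative element of the class and `Good M d` holds, then the equality of the conjecture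
holds for `π(M, d)`, with both sides zero (`Holds M d`).
(2) Let `P` be a finite set of pairs `(b, d)` of elements of the class, the `d` negative, and let `W` be the
set of the squarefree parts of the `b` and the `b d`.  If `D` is in the class and `GoodAll P D` holds then
`Good M d` holds for all `(b, d) ∈ P` and the squarefree part `M` of `D b`; and the proportion of the `D`
with `GoodAll P D` is exactly `c^#W`, among the positive `D` of the class, ordered by absolute value, and
also among the negative ones.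
(3) Let `T` be a finite set of elements `M` of the class such that the rank of `E_M` is zero and
`Ш(E_M)[2] = 0` over all the layers of the cyclotomic `ℤ₃`-extension (for example `T = {1}`).  Then the
proportion of the `d` with `Good M d` for all `M ∈ T`, among the negative `d` of the class, ordered by
absolute value, is exactly `c^#T`.
Here `0.4194 < c < 0.4195`, and the number of the elements of the class of a given sign with
`|D| ≤ X` is at least a positive constant times `X (log X)^(-3/4)`. -/
theorem result :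
    (∀ M d : ℤ, Adm d → d < 0 → Good M d → Holds M d) ∧
    (∀ P : Finset (ℤ × ℤ), IsPairs P → ∀ W : Finset ℤ, IsClasses P W →
      (∀ D : ℤ, Adm D → GoodAll P D → ∀ x ∈ P, ∀ M k : ℤ, Adm M → D * x.1 = M * k ^ 2 →
        Good M x.2) ∧
      ∀ s : ℤ, (s = 1 ∨ s = -1) → Proportion (GoodAll P) s (cc ^ W.card)) ∧
    (∀ T : Finset ℤ, (∀ M ∈ T, Adm M ∧ Small M) →
      Proportion (fun d => ∀ M ∈ T, Good M d) (-1) (cc ^ T.card)) ∧
    Small 1 ∧ Many 1 ∧ Many (-1) ∧ (0.4194 < cc ∧ cc < 0.4195) := by
  refine ⟨fun M d hd h0 h => holds_of hd h0 h, fun P hP W hW => ⟨fun D hD h x hx M k hM hk =>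
    good_of_all h hx hM hk, fun s hs => ?_⟩, fun T hT => ?_, small_one,
    (Pool.Agent.Results.MP_0b9e0b_ag.MultiquadraticProducts.result.2.1 1 (Or.inl rfl)).1,
    (Pool.Agent.Results.MP_0b9e0b_ag.MultiquadraticProducts.result.2.1 (-1) (Or.inr rfl)).1,
    Pool.Agent.Y948.CQ.t_C2.2.2.2⟩
  · obtain ⟨W', h1, h2⟩ := exists_classes hP
    have e := classes_uniq hW h1
    subst e
    have h3 := (Pool.Agent.Results.MP_0b9e0b_ag.MultiquadraticProducts.result.2.1 s hs).2 ∅ W
      isBase_empty (family fun M hM => ((hW M).1 hM).1)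
    rw [Finset.card_empty, pow_zero, mul_one] at h3
    refine h3.congr fun X => ?_
    congr 2
    unfold count
    refine Nat.card_congr (Equiv.subtypeEquivRight fun D => ?_)
    show (|D| ≤ (X : ℤ) ∧ (Adm D ∧ 0 < s * D ∧ Criterion W ∅ D)) ↔
      (|D| ≤ (X : ℤ) ∧ (Adm D ∧ 0 < s * D ∧ GoodAll P D))
    constructor
    · rintro ⟨g1, g2, g3, g4⟩
      exact ⟨g1, g2, g3, (h2 D g2).2 g4⟩
    · rintro ⟨g1, g2, g3, g4⟩
      exact ⟨g1, g2, g3, (h2 D g2).1 g4⟩
  · have h3 := (Pool.Agent.Results.MP_0b9e0b_ag.MultiquadraticProducts.result.2.1 (-1)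
      (Or.inr rfl)).2 ∅ T isBase_empty (family fun M hM => (hT M hM).1)
    rw [Finset.card_empty, pow_zero, mul_one] at h3
    refine h3.congr fun X => ?_
    congr 2
    unfold count
    refine Nat.card_congr (Equiv.subtypeEquivRight fun D => ?_)
    show (|D| ≤ (X : ℤ) ∧ (Adm D ∧ 0 < -1 * D ∧ Criterion T ∅ D)) ↔
      (|D| ≤ (X : ℤ) ∧ (Adm D ∧ 0 < -1 * D ∧ ∀ M ∈ T, Good M D))
    constructor
    · rintro ⟨g1, g2, g3, g4⟩
      refine ⟨g1, g2, g3, fun M hM => ⟨(hT M hM).1, (hT M hM).2, fun D' k hD' hk => ?_⟩⟩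
      refine g4 M hM ∅ (Finset.empty_subset _) D' k hD' ?_
      rw [Finset.prod_empty, mul_one, mul_comm]
      exact hk
    · rintro ⟨g1, g2, g3, g4⟩
      refine ⟨g1, g2, g3, fun M hM U hU D' k hD' hk => ?_⟩
      rw [Finset.subset_empty.1 hU, Finset.prod_empty, mul_one] at hk
      exact (g4 M hM).2.2 D' k hD' (by rw [mul_comm]; exact hk)

end Pool.Agent.Results.MP_7c08ba_nt.ImaginaryQuadraticLaw
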