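import Pool.Agent.V1194.LP.Pack

/-!
# The central order of `L(s, π)` for representations of `GL_n` from the Satake parameters

Let `F` be a number field (in the question imaginary quadratic) and `π` a cuspidal automorphic representation of
`GL_n` over `F` of motivic weight `-1`, for example with `π^∨ ≅ π^c |·|⁻¹`; the centre of `L(s, π)` is `s = 0`.
Let `S` be a finite set of primes containing those where `π` is ramified, and for `v ∉ S` let `A_v` be a matrix
with the Satake parameters of `π_v` as eigenvalues. They have absolute values at most `1` (in this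
normalisation this is the bound of Jacquet and Shalika, `|α| < q_v^{1/2}` for the unitary twist; nothing like
the Ramanujan conjecture is used). `L(s)`, the L-function without the Euler factors at `S` (which have no zeros
or poles at `0`), is `∏_{v ∉ S} det(1 - q_v^{-s} A_v)⁻¹` for `Re s > 1` and continues to all real points of
`[0, 1]` (Godement and Jacquet: it is entire). For a real number `γ > π/2` let

`V(X) = ∑_{v ∉ S} ∑_{k ≥ 1} tr(A_v^k)/k · e^{iγu}/Γ(1 + u)`,  `u = k log q_v / log X`.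

(Without the weights, which tend to `1` for `X → ∞`, this would be the divergent series for `log L(0)`.) Then, for
EVERY `π` and without any hypothesis on the zeros of `L(s, π)`:

1. `V(X)` converges absolutely and `V(X) = c - r (log log X - Λ_γ) + O(1/log X)`, where `r` is the order and `e^c`
   the leading coefficient of `L(s)` at `s = 0`, with an explicit constant `Λ_γ`;
2. for every natural number `h`: the central order is `h` if and only if `V(X) + h log log X` is bounded for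
   `X → ∞`; it is at least `h` if and only if `Re V(X) + h log log X` is bounded above, and at most `h` if and
   only if this is bounded below;
3. for every complex `B`: `L(0) = B` if and only if `exp V(X) → B`, if `L` is analytic at `0`.

With `h = dim H¹_f(F, ρ_{π,ι})` this turns the formula of Bloch and Kato for `π`, and each of the two
inequalities in it, into a statement on the Satake parameters.
-/

set_option autoImplicit false

namespace Pool.Agent.Results.MP_7c08ba_nt.OrderFromSatakeParameters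

open Filter Topology Set NumberField IsDedekindDomain

variable {F : Type} [Field F] [NumberField F]

/-- The norm `q_v` of a prime. -/
noncomputable def nrm (v : HeightOneSpectrum (𝓞 F)) : ℕ := Ideal.absNorm v.asIdeal

/-- `L` is the L-function with the Satake parameters the eigenvalues of `A_v`, `v ∉ S`: they have absolute
values at most `1`, `L(s) = ∏_{v ∉ S} det(1 - q_v^{-s} A_v)⁻¹` for `Re s > 1`, and `L` is meromorphic at the
points of the real interval `[0, 1]`. -/
structure IsLFunction (S : Finset (HeightOneSpectrum (𝓞 F))) {n : ℕ}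
    (A : HeightOneSpectrum (𝓞 F) → Matrix (Fin n) (Fin n) ℂ) (L : ℂ → ℂ) : Prop where
  bound : ∀ v ∉ S, ∀ z ∈ (A v).charpoly.roots, ‖z‖ ≤ 1
  prod : ∀ s : ℂ, 1 < s.re → L s =
    ∏' v : {v : HeightOneSpectrum (𝓞 F) // v ∉ S}, ((1 - (nrm v.1 : ℂ) ^ (-s) • A v.1).det)⁻¹
  mero : ∀ x ∈ Icc (0 : ℝ) 1, MeromorphicAt L (x : ℂ)

/-- The weight `e^{iγu} / Γ(1 + u)`. -/
noncomputable def weight (γ u : ℝ) : ℂ :=
  Complex.exp ((γ * u : ℝ) * Complex.I) / (Real.Gamma (1 + u) : ℂ)

/-- The term `tr(A_v^k)/k` times the weight at `u = k log q_v / log X`. -/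
noncomputable def term {n : ℕ} (A : HeightOneSpectrum (𝓞 F) → Matrix (Fin n) (Fin n) ℂ) (γ X : ℝ)
    (v : HeightOneSpectrum (𝓞 F)) (k : ℕ) : ℂ :=
  (A v ^ k).trace / k * weight γ (k * Real.log (nrm v) / Real.log X)

/-- `V(X)`, the sum over `v ∉ S` and `k ≥ 1` (here `k = x.2 + 1`). -/
noncomputable def V (S : Finset (HeightOneSpectrum (𝓞 F))) {n : ℕ}
    (A : HeightOneSpectrum (𝓞 F) → Matrix (Fin n) (Fin n) ℂ) (γ X : ℝ) : ℂ :=
  ∑' x : {v : HeightOneSpectrum (𝓞 F) // v ∉ S} × ℕ, term A γ X x.1.1 (x.2 + 1)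

/-- `Λ_γ = ∫_0^∞ (e^{-t} - e^{iγt} / Γ(1 + t)) dt / t`. -/
noncomputable def Lam (γ : ℝ) : ℂ := ∫ t in Ioi (0 : ℝ),
  (Complex.exp (-(t : ℂ)) - Complex.exp ((γ * t : ℝ) * Complex.I) * ((Real.Gamma (1 + t))⁻¹ : ℝ)) / t

open Pool.Agent.V11288.LZ

variable {S : Finset (HeightOneSpectrum (𝓞 F))} {n : ℕ}
  {A : HeightOneSpectrum (𝓞 F) → Matrix (Fin n) (Fin n) ℂ} {L : ℂ → ℂ} {γ : ℝ}

theorem eul (hL : IsLFunction S A L) : Eul 1 0 (fun v : {v : HeightOneSpectrum (𝓞 F) | v ∉ S} =>
    (Ideal.absNorm v.1.asIdeal : ℝ)) (fun v => A v.1) := by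
  refine eul_nf fun v z hz => ?_
  rw [Real.rpow_zero]
  exact hL.bound v.1 v.2 z hz

theorem term_eq (X : ℝ) (x : {v : HeightOneSpectrum (𝓞 F) | v ∉ S} × ℕ) :
    tm (fun v : {v : HeightOneSpectrum (𝓞 F) | v ∉ S} => (Ideal.absNorm v.1.asIdeal : ℝ))
      (fun v => A v.1) 0 γ X x = term A γ X x.1.1 (x.2 + 1) := by
  unfold tm term weight wt nrm
  rw [Real.rpow_zero, Complex.ofReal_one, one_pow, mul_one]

theorem V_eq (X : ℝ) :
    tot (fun v : {v : HeightOneSpectrum (𝓞 F) | v ∉ S} => (Ideal.absNorm v.1.asIdeal : ℝ))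
      (fun v => A v.1) 0 γ X = V S A γ X :=
  tsum_congr fun x => term_eq X x

/-- **The central order and value from the Satake parameters.** -/
theorem result (S : Finset (HeightOneSpectrum (𝓞 F))) {n : ℕ}
    (A : HeightOneSpectrum (𝓞 F) → Matrix (Fin n) (Fin n) ℂ) (L : ℂ → ℂ) (hL : IsLFunction S A L)
    (γ : ℝ) (hγ : Real.pi / 2 < γ) :
    (∀ X : ℝ, 1 < X → Summable fun x : {v : HeightOneSpectrum (𝓞 F) // v ∉ S} × ℕ =>
      ‖term A γ X x.1.1 (x.2 + 1)‖) ∧
    (∃ (r : ℤ) (c : ℂ), meromorphicOrderAt L 0 = r ∧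
      Tendsto (fun s : ℂ => L s / s ^ r) (𝓝[≠] 0) (𝓝 (Complex.exp c)) ∧
      (fun X : ℝ => V S A γ X - (c - r * (Real.log (Real.log X) - Lam γ))) =O[atTop]
        (fun X : ℝ => 1 / Real.log X)) ∧
    (∀ h : ℕ, meromorphicOrderAt L 0 = (h : ℤ) ↔
      ∃ C : ℝ, ∀ᶠ X : ℝ in atTop, ‖V S A γ X + h * Real.log (Real.log X)‖ ≤ C) ∧
    (∀ h : ℕ, ((h : ℤ) : WithTop ℤ) ≤ meromorphicOrderAt L 0 ↔
      ∃ C : ℝ, ∀ᶠ X : ℝ in atTop, (V S A γ X).re + h * Real.log (Real.log X) ≤ C) ∧
    (∀ h : ℕ, meromorphicOrderAt L 0 ≤ (h : ℤ) ↔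
      ∃ C : ℝ, ∀ᶠ X : ℝ in atTop, C ≤ (V S A γ X).re + h * Real.log (Real.log X)) ∧
    (AnalyticAt ℂ L 0 → ∀ B : ℂ, L 0 = B ↔
      Tendsto (fun X : ℝ => Complex.exp (V S A γ X)) atTop (𝓝 B)) := by
  obtain ⟨h1, ⟨r, c, h2, h3, h4⟩, h5, h6, h7, -, h8⟩ := Pool.Agent.V1194.LP.package
    (eul hL) (L := L) 0 (fun x hx => hL.mero x ⟨hx.1, by linarith [hx.2]⟩)
    (fun s hs => by
      rw [hL.prod s (by linarith)]
      rfl) hγ
  simp only [V_eq, Complex.ofReal_zero, sub_zero] at h2 h3 h4 h5 h6 h7 h8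
  refine ⟨fun X hX => (h1 X hX).congr fun x => by rw [term_eq], ⟨r, c, h2, h3, h4⟩, fun h => ?_,
    fun h => ?_, fun h => ?_, fun ha B => ?_⟩
  · rw [h5 h]
    simp only [Int.cast_natCast]
  · rw [h6 h]
    simp only [Int.cast_natCast]
  · rw [h7 h]
    simp only [Int.cast_natCast]
  · have h9 : Tendsto L (𝓝[≠] 0) (𝓝 (L 0)) :=
      ha.continuousAt.tendsto.mono_left nhdsWithin_le_nhds
    rw [← h8 B]
    exact ⟨fun h => h ▸ h9, fun h => tendsto_nhds_unique h9 h⟩

end Pool.Agent.Results.MP_7c08ba_nt.OrderFromSatakeParameters
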