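import Pool.Agent.Results.MP_7c08ba_nt.ImaginaryQuadraticLaw
import Pool.Agent.V1110.SpB

/-!
# The Bloch–Kato conjecture for base changes to imaginary quadratic fields: exact proportions along
# sparse sequences of twists and of fields

`E_M` is the quadratic twist by `M` of `X_0(14)`, an elliptic curve without complex multiplication, and
for elements `M` and `d < 0` of the class `Adm` the cuspidal representation `π(M, d)` is the base
change of `E_M` to `F = ℚ(√d)`.  `ImaginaryQuadraticLaw` (this problem) shows that the equality of the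
conjecture holds, with both sides zero, for all the pairs with `Good M d`, and computes the
proportions of such pairs, in the order of the absolute values of the twists or of the
discriminants.

Here the laws are proved for sparse sets of twists and of imaginary quadratic fields: let `κ > 1` be a
real number.  For all `α > 0` outside a set of Hausdorff dimension less than one the same laws hold
among the `n ≤ N` for which `D = ± ⌊α n ^ κ⌋` is in the class (there are at least `b N (log N)^(-3/4)`
of them):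

* for every finite set `P` of pairs `(b, d)` of elements of the class, `d < 0`, the `D` for which the
  equality holds for all the representations `π(b D, d)` (squarefree part of `b D`) have the proportion
  exactly `c^w`, `w` the number of the classes modulo squares of the `b` and the `b d`;
* for every finite set `T` of elements `M` of the class with rank zero and `Ш[2] = 0` the imaginary
  quadratic fields `ℚ(√d)`, `d = - ⌊α n ^ κ⌋`, for which the equality holds for all the `π(M, d)` have the
  proportion exactly `c^#T`.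

The exceptional set of the `α` does not depend on `P` and `T`.  The passage from all `D` to the sequences is
the lemma `ratio_nat` of `Pool.Agent.V1110.SpB` (helper10).
-/

set_option autoImplicit false

open Filter Topology

namespace Pool.Agent.Results.MP_7c08ba_nt.SparseSequences

open scoped Classical

open Pool.Agent.Results.MP_787500_nt.LayersBlochKatoLaw (Adm Small count cc Proportion Many)

open Pool.Agent.Results.MP_7c08ba_nt.ImaginaryQuadraticLaw (Holds Good GoodAll IsPairs IsClasses)

/-- the number of the `1 ≤ n ≤ N` for which `D = s ⌊α n ^ κ⌋` is in the class and satisfies `Q D` -/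
noncomputable def countAlong (α κ : ℝ) (s : ℤ) (Q : ℤ → Prop) (N : ℕ) : ℕ :=
  Nat.card {n : ℕ // (1 ≤ n ∧ n ≤ N) ∧
    (Adm (s * ⌊α * (n : ℝ) ^ κ⌋₊) ∧ Q (s * ⌊α * (n : ℝ) ^ κ⌋₊))}

/-- among the `n ≤ N` for which `D = s ⌊α n ^ κ⌋` is in the class the proportion of those with `Q D` tends
to `c` -/
def ProportionAlong (α κ : ℝ) (s : ℤ) (Q : ℤ → Prop) (c : ℝ) : Prop :=
  Tendsto (fun N : ℕ => (countAlong α κ s Q N : ℝ) / (countAlong α κ s (fun _ => True) N : ℝ))
    atTop (𝓝 c)

/-- the number of the `n ≤ N` for which `D = s ⌊α n ^ κ⌋` is in the class is at least a positive constant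
times `N (log N)^(-3/4)` -/
def ManyAlong (α κ : ℝ) (s : ℤ) : Prop := ∃ (b : ℝ) (N₀ : ℕ), 0 < b ∧ ∀ N : ℕ, N₀ ≤ N →
  b * N * (Real.log N) ^ (-(3 / 4) : ℝ) ≤ (countAlong α κ s (fun _ => True) N : ℝ)

lemma card_sgn (s : ℤ) (Q : ℤ → Prop) (X : ℕ) :
    count (fun D => Adm D ∧ 0 < s * D ∧ Q D) X =
      Nat.card {D : ℤ // |D| ≤ X ∧ 0 < s * D ∧ (Adm D ∧ Q D)} := by
  unfold count
  refine Nat.card_congr (Equiv.subtypeEquivRight fun D => ?_)
  show (|D| ≤ (X : ℤ) ∧ (Adm D ∧ 0 < s * D ∧ Q D)) ↔ (|D| ≤ (X : ℤ) ∧ 0 < s * D ∧ (Adm D ∧ Q D))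
  tauto

lemma card_all (s : ℤ) (X : ℕ) :
    count (fun D => Adm D ∧ 0 < s * D) X =
      Nat.card {D : ℤ // |D| ≤ X ∧ 0 < s * D ∧ (Adm D ∧ True)} := by
  unfold count
  refine Nat.card_congr (Equiv.subtypeEquivRight fun D => ?_)
  show (|D| ≤ (X : ℤ) ∧ (Adm D ∧ 0 < s * D)) ↔ (|D| ≤ (X : ℤ) ∧ 0 < s * D ∧ (Adm D ∧ True))
  tauto

/-- The transfer of countably many laws. -/
theorem transfer {ι : Type} [Countable ι] (κ : ℝ) (hκ : 1 < κ) (Q : ι → ℤ → Prop) :
    ∃ Z : Set ℝ, dimH Z < 1 ∧ ∀ α : ℝ, 0 < α → α ∉ Z →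
      ∀ s : ℤ, (s = 1 ∨ s = -1) → Many s → ∀ (i : ι) (c : ℝ), Proportion (Q i) s c →
        ProportionAlong α κ s (Q i) c ∧ ManyAlong α κ s := by
  obtain ⟨Z, hZ, h⟩ := Pool.Agent.V1110.SpA.ratio_int κ hκ (fun i D => Adm D ∧ Q i D)
    (fun (_ : ι) D => Adm D ∧ True)
  refine ⟨Z, hZ, fun α hα hαZ s hs hmany i c hc => ?_⟩
  obtain ⟨a, X₀, ha, hX₀⟩ := hmany
  have h1 := h α hα hαZ i s hs c a (3 / 4) ha (by norm_num)
    ⟨X₀, fun X hX => by rw [← card_all]; exact hX₀ X hX⟩
    (by
      unfold Proportion at hc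
      refine hc.congr fun X => ?_
      rw [card_sgn, card_all])
  obtain ⟨h2, b, hb, N₀, h3⟩ := h1
  exact ⟨h2, b, N₀, hb, h3⟩

/-- **Main theorem.** Let `κ > 1`. There is a set `Z` of real numbers of Hausdorff dimension less than one
such that for all `α > 0` outside `Z`:
(1) for all finite sets `P` of pairs `(b, d)` of elements of the class, `d < 0`, with the set `W` of the
squarefree parts of the `b` and the `b d`, and both signs `s`: among the `n ≤ N` for which
`D = s ⌊α n ^ κ⌋` is in the class the proportion of those for which the equality of the conjecture, with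
both sides zero, holds for `π(M, d)`, `M` the squarefree part of `D b`, for all `(b, d) ∈ P`, by the
criterion `GoodAll P D`, tends to exactly `c^#W`;
(2) for all finite sets `T` of elements `M` of the class with rank zero and `Ш[2] = 0` over all the layers
of the cyclotomic `ℤ₃`-extension: among the `n ≤ N` for which `d = - ⌊α n ^ κ⌋` is in the class the proportion
of those with `Good M d` for all `M ∈ T`, tends to exactly `c^#T`;
(3) at least `b N (log N)^(-3/4)` of the `n ≤ N` are such that `s ⌊α n ^ κ⌋` is in the class.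
For negative `d` in the class, `Good M d` implies the equality `Holds M d`; and `GoodAll P D` implies
`Good M d` for all `(b, d) ∈ P` and the squarefree part `M` of `D b`. Here `0.4194 < c < 0.4195`. -/
theorem result (κ : ℝ) (hκ : 1 < κ) :
    (∃ Z : Set ℝ, dimH Z < 1 ∧ ∀ α : ℝ, 0 < α → α ∉ Z →
      (∀ P : Finset (ℤ × ℤ), IsPairs P → ∀ W : Finset ℤ, IsClasses P W →
        ∀ s : ℤ, (s = 1 ∨ s = -1) → ProportionAlong α κ s (GoodAll P) (cc ^ W.card)) ∧
      (∀ T : Finset ℤ, (∀ M ∈ T, Adm M ∧ Small M) →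
        ProportionAlong α κ (-1) (fun d => ∀ M ∈ T, Good M d) (cc ^ T.card)) ∧
      ∀ s : ℤ, (s = 1 ∨ s = -1) → ManyAlong α κ s) ∧
    (∀ M d : ℤ, Adm d → d < 0 → Good M d → Holds M d) ∧
    (∀ P : Finset (ℤ × ℤ), IsPairs P → ∀ D : ℤ, Adm D → GoodAll P D → ∀ x ∈ P, ∀ M k : ℤ, Adm M →
      D * x.1 = M * k ^ 2 → Good M x.2) ∧
    Small 1 ∧ (0.4194 < cc ∧ cc < 0.4195) := by
  obtain ⟨r1, r2, r3, r4, r5, r6, r7⟩ :=
    Pool.Agent.Results.MP_7c08ba_nt.ImaginaryQuadraticLaw.result
  have hmany : ∀ s : ℤ, (s = 1 ∨ s = -1) → Many s := by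
    rintro s (rfl | rfl)
    · exact r5
    · exact r6
  refine ⟨?_, r1, fun P _ D _ h x hx M k hM hk =>
    Pool.Agent.Results.MP_7c08ba_nt.ImaginaryQuadraticLaw.good_of_all h hx hM hk, r4, r7⟩
  obtain ⟨Z, hZ, h⟩ := transfer (ι := Finset (ℤ × ℤ) ⊕ Finset ℤ) κ hκ
    (Sum.elim (fun P => GoodAll P) (fun T d => ∀ M ∈ T, Good M d))
  refine ⟨Z, hZ, fun α hα hαZ => ⟨fun P hP W hW s hs => ?_, fun T hT => ?_, fun s hs => ?_⟩⟩
  · exact (h α hα hαZ s hs (hmany s hs) (Sum.inl P) _ ((r2 P hP W hW).2 s hs)).1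
  · exact (h α hα hαZ (-1) (Or.inr rfl) r6 (Sum.inr T) _ (r3 T hT)).1
  · have hP : IsPairs ∅ := fun x hx => absurd hx (Finset.notMem_empty x)
    have hW : IsClasses ∅ ∅ := by
      intro M
      constructor
      · intro hM
        exact absurd hM (Finset.notMem_empty M)
      · rintro ⟨_, x, hx, _⟩
        exact absurd hx (Finset.notMem_empty x)
    exact (h α hα hαZ s hs (hmany s hs) (Sum.inl ∅) _ ((r2 ∅ hP ∅ hW).2 s hs)).2

end Pool.Agent.Results.MP_7c08ba_nt.SparseSequences
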